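import Pool.Agent.H24.LS.A0
import Pool.Agent.H24.LS.Base
import Pool.Agent.H80.LM.G17
import Pool.Agent.H80.LM.G24

/-!
# MP_816883_ag: the Lipschitz splitting lemma

Q1 has a positive answer for all `n` and `m`.

Idea of the proof.  By the analytic splitting lemma one may assume that the Hessians at `0` vanish.  Forgetting the quadratic
variables leaves a coarse equivalence (`H24.LS.Coarse`): Lipschitz maps `A, B` which are inverse to each other, and carry `f` to `g`,
up to errors controlled by the gradients.  Locally, at the scale of the gradient, `f` is a coordinate, and the coarse equivalence is
replaced by local bi-Lipschitz homeomorphisms carrying `f` to `g`, which differ from each other by near-identity maps preserving `f`.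
They are glued by a Lipschitz deformation (extension) theorem with parameter `f`
for near-identity bi-Lipschitz maps (`H80.LD.ExtStmt`), which is proved by folding maps (punctured immersions), a filling theorem (a
near-identity Schoenflies theorem by the Mazur swindle), and an infinite process at smaller and smaller scales.
-/

open Filter Topology Metric

namespace Pool.Agent.Results.MP_816883_ag.LipSplitting

open H24.LS H80.LD

theorem result (n m : ℕ) (f g : (Fin n → ℂ) → ℂ) (hf : Grm f) (hg : Grm g)
    (h : LipEquiv (stb m f) (stb m g)) : LipEquiv f g :=
  lip_split (fun k hk => E7_ext (2 * k) (by omega)) n m f g hf hg h

end Pool.Agent.Results.MP_816883_ag.LipSplitting
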